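import Pool.Agent.V7H92.S5.Line

set_option autoImplicit false
set_option linter.unusedSectionVars false

/-!
# Coordinates for the projective line over `ZMod 191`

A point is coded by a number at most `191`; the code `191` stands for the point at infinity.
-/

namespace Pool.Agent.V7H92.S5

open OnePoint Matrix

/-- the field with 191 elements -/
abbrev F : Type := ZMod 191

instance fact_prime : Fact (Nat.Prime 191) := ⟨by norm_num⟩

/-- first coordinate of a code -/
def h1 (n : ℕ) : ℕ := bif Nat.beq n 191 then 1 else n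

/-- second coordinate of a code -/
def h2 (n : ℕ) : ℕ := bif Nat.beq n 191 then 0 else 1

/-- coordinate vector of a code -/
def vec (n : ℕ) : F × F := ((h1 n : F), (h2 n : F))

/-- the point with a given code -/
def dec (n : ℕ) : OnePoint F := pt (vec n)

/-- determinant of two codes -/
def dn (m n : ℕ) : ℕ :=
  Nat.mod (Nat.add (Nat.mul (h1 m) (h2 n)) (Nat.sub 191 (Nat.mod (Nat.mul (h2 m) (h1 n)) 191))) 191

/-- table of the inverses modulo 191, base 256 -/
def invT : ℕ := 0xbe5f7f8f269f6da76a1334af2c968cb392350a69641a53b75416634b4f469ab951493c7aa0058e94b132970dae8941bb982ab00b12917d8543877b23484d61bc2f8839849b1e4e3d22501c623e471d4a21b81719b6ab5a666757aaa4738002bd3f4c1b15685859651409a6a8079e75a278815da36f9d8271a1243b863790035e72779c44387c3a422eadb40f9527047e3611b2288d0e2b31ba1f4583766e06257970745ca96b086ca55b56b58a2d0c332993108bac55185220993040600100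

/-- inverse modulo 191 -/
def inv (x : ℕ) : ℕ := Nat.mod (Nat.shiftRight invT (Nat.mul 8 x)) 256

/-- bit mask of the nonzero squares -/
def sqT : ℕ := 0x112160d566905e7236839d71463e93b185f69954f97b77e

/-- is `x` a nonzero square modulo 191? -/
def chi (x : ℕ) : Bool := Nat.beq (Nat.mod (Nat.shiftRight sqT x) 2) 1

/-- image of the code `z` under the Möbius map with `a ↦ ∞`, `b ↦ 0`, `c ↦ 1`, where `A = dn c a`
and `C = dn c b` -/
def phi (a b A C z : ℕ) : ℕ :=
  (fun den : ℕ => bif Nat.beq den 0 then 191 else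
    Nat.mod (Nat.mul (Nat.mod (Nat.mul (dn z b) A) 191) (inv den)) 191)
    (Nat.mod (Nat.mul (dn z a) C) 191)

/-- orientation of a triple of codes -/
def ori (a b c : ℕ) : Bool :=
  chi (Nat.mod (Nat.mul (Nat.mod (Nat.mul (dn c a) (dn c b)) 191) (dn b a)) 191)

theorem inv_spec : ∀ x < 191, x ≠ 0 → x * inv x % 191 = 1 := by decide +kernel

/-- auxiliary: is `x` in the list of squares of the numbers up to `n`? -/
def isSq (x : ℕ) : ℕ → Bool
  | 0 => false
  | n + 1 => Nat.beq (Nat.mod (Nat.mul (n + 1) (n + 1)) 191) x || isSq x n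

theorem chi_spec : ∀ x < 191, chi x = isSq x 190 := by decide +kernel

theorem isSq_iff (x : ℕ) : ∀ n, isSq x n = true ↔ ∃ y, 1 ≤ y ∧ y ≤ n ∧ y * y % 191 = x := by
  intro n
  induction n with
  | zero =>
    simp only [isSq]
    constructor
    · intro h
      exact absurd h (by simp)
    · rintro ⟨y, h1, h2, _⟩
      omega
  | succ n ih =>
    rw [isSq, Bool.or_eq_true, ih]
    constructor
    · rintro (h | ⟨y, h1, h2, h3⟩)
      · exact ⟨n + 1, by omega, le_rfl, Nat.eq_of_beq_eq_true h⟩
      · exact ⟨y, h1, by omega, h3⟩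
    · rintro ⟨y, h1, h2, h3⟩
      rcases Nat.lt_or_ge n y with h | h
      · left
        have : y = n + 1 := by omega
        subst this
        rw [← h3]
        exact Nat.beq_refl _
      · right
        exact ⟨y, h1, h, h3⟩

theorem cast_mod (n : ℕ) : ((Nat.mod n 191 : ℕ) : F) = (n : F) := by
  change ((n % 191 : ℕ) : F) = _
  exact ZMod.natCast_mod n 191

theorem cast_eq_zero {n : ℕ} (h : n < 191) : (n : F) = 0 ↔ n = 0 := by
  rw [ZMod.natCast_eq_zero_iff]
  constructor
  · intro h2
    exact Nat.eq_zero_of_dvd_of_lt h2 h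
  · rintro rfl
    exact dvd_zero _

theorem cast_inj {m n : ℕ} (hm : m < 191) (hn : n < 191) (h : (m : F) = (n : F)) : m = n := by
  rw [ZMod.natCast_eq_natCast_iff'] at h
  rwa [Nat.mod_eq_of_lt hm, Nat.mod_eq_of_lt hn] at h

theorem dn_cast (m n : ℕ) : ((dn m n : ℕ) : F) = dt (vec m) (vec n) := by
  unfold dn
  rw [cast_mod]
  change ((h1 m * h2 n + (191 - (h2 m * h1 n) % 191) : ℕ) : F) = _
  have h3 : (h2 m * h1 n) % 191 ≤ 191 := (Nat.mod_lt _ (by norm_num)).le
  rw [Nat.cast_add, Nat.cast_sub h3, ZMod.natCast_mod, Nat.cast_mul, Nat.cast_mul]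
  have h4 : ((191 : ℕ) : F) = 0 := ZMod.natCast_self 191
  rw [h4]
  unfold dt vec
  ring

theorem mod_lt' (n : ℕ) : Nat.mod n 191 < 191 := Nat.mod_lt n (by norm_num)

theorem dn_lt (m n : ℕ) : dn m n < 191 := mod_lt' _

theorem inv_cast {x : ℕ} (h : x < 191) (h0 : x ≠ 0) : ((inv x : ℕ) : F) = (x : F)⁻¹ := by
  have h1 := inv_spec x h h0
  have h2 : ((x * inv x % 191 : ℕ) : F) = 1 := by rw [h1]; simp
  rw [ZMod.natCast_mod, Nat.cast_mul] at h2
  have h3 : (x : F) ≠ 0 := by rwa [Ne, cast_eq_zero h]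
  exact (eq_inv_of_mul_eq_one_right h2)

theorem h2_191 : h2 191 = 0 := rfl

theorem h1_191 : h1 191 = 1 := rfl

theorem h1_of_lt {n : ℕ} (h : n < 191) : h1 n = n := by
  have : Nat.beq n 191 = false := by
    rw [← Bool.not_eq_true]
    intro h2
    have := Nat.eq_of_beq_eq_true h2
    omega
  unfold h1
  rw [this]
  rfl

theorem h2_of_lt {n : ℕ} (h : n < 191) : h2 n = 1 := by
  have : Nat.beq n 191 = false := by
    rw [← Bool.not_eq_true]
    intro h2
    have := Nat.eq_of_beq_eq_true h2
    omega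
  unfold h2
  rw [this]
  rfl

theorem dec_191 : dec 191 = ∞ := by
  unfold dec vec pt
  rw [h2_191]
  simp

theorem dec_lt {n : ℕ} (h : n < 191) : dec n = ((n : F) : OnePoint F) := by
  unfold dec vec pt
  rw [h1_of_lt h, h2_of_lt h]
  simp

theorem dec_zero : dec 0 = ((0 : F) : OnePoint F) := by
  rw [dec_lt (by norm_num)]
  simp

theorem dec_one : dec 1 = ((1 : F) : OnePoint F) := by
  rw [dec_lt (by norm_num)]
  simp

theorem dec_inj {m n : ℕ} (hm : m ≤ 191) (hn : n ≤ 191) (h : dec m = dec n) : m = n := by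
  rcases Nat.lt_or_ge m 191 with h1 | h1
  · rcases Nat.lt_or_ge n 191 with h2 | h2
    · rw [dec_lt h1, dec_lt h2, OnePoint.coe_eq_coe] at h
      exact cast_inj h1 h2 h
    · have : n = 191 := by omega
      subst this
      rw [dec_lt h1, dec_191] at h
      exact absurd h (OnePoint.coe_ne_infty _)
  · have : m = 191 := by omega
    subst this
    rcases Nat.lt_or_ge n 191 with h2 | h2
    · rw [dec_lt h2, dec_191] at h
      exact absurd h.symm (OnePoint.coe_ne_infty _)
    · omega

theorem exists_code (x : OnePoint F) : ∃ n ≤ 191, dec n = x := by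
  induction x using OnePoint.rec with
  | infty => exact ⟨191, le_rfl, dec_191⟩
  | coe x =>
    refine ⟨x.val, (ZMod.val_lt x).le, ?_⟩
    rw [dec_lt (ZMod.val_lt x), ZMod.natCast_zmod_val]

theorem vec_ne (n : ℕ) (h : n ≤ 191) : vec n ≠ 0 := by
  intro h0
  rcases Nat.lt_or_ge n 191 with h1 | h1
  · have : (vec n).2 = 0 := by rw [h0]; rfl
    unfold vec at this
    rw [h2_of_lt h1] at this
    simp at this
  · have h3 : n = 191 := by omega
    subst h3
    have : (vec 191).1 = 0 := by rw [h0]; rfl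
    unfold vec at this
    rw [h1_191] at this
    simp at this

/-- the value of `phi` -/
theorem phi_dec (a b A C z : ℕ) :
    dec (phi a b A C z) = pt (dt (vec z) (vec b) * (A : F), dt (vec z) (vec a) * (C : F)) := by
  unfold phi
  have e1 : (((Nat.mod (Nat.mul (dn z a) C) 191) : ℕ) : F) = dt (vec z) (vec a) * (C : F) := by
    rw [cast_mod]
    change ((dn z a * C : ℕ) : F) = _
    rw [Nat.cast_mul, dn_cast]
  have e2 : (((Nat.mod (Nat.mul (dn z b) A) 191) : ℕ) : F) = dt (vec z) (vec b) * (A : F) := by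
    rw [cast_mod]
    change ((dn z b * A : ℕ) : F) = _
    rw [Nat.cast_mul, dn_cast]
  have e3 : Nat.mod (Nat.mul (dn z a) C) 191 < 191 := mod_lt' _
  rw [← e1, ← e2]
  generalize Nat.mod (Nat.mul (dn z a) C) 191 = y at e3
  generalize Nat.mod (Nat.mul (dn z b) A) 191 = x
  simp only
  by_cases h : y = 0
  · subst h
    have : Nat.beq 0 0 = true := rfl
    rw [this, cond_true, dec_191]
    unfold pt
    simp
  · have : Nat.beq y 0 = false := by
      rw [← Bool.not_eq_true]
      intro h2
      exact h (Nat.eq_of_beq_eq_true h2)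
    rw [this, cond_false, dec_lt (mod_lt' _), cast_mod]
    change (((x * inv y : ℕ) : F) : OnePoint F) = _
    rw [Nat.cast_mul, inv_cast e3 h]
    unfold pt
    have h5 : (y : F) ≠ 0 := by rwa [Ne, cast_eq_zero e3]
    simp only [h5, if_false]
    rw [div_eq_mul_inv]

theorem phi_le (a b A C z : ℕ) : phi a b A C z ≤ 191 := by
  unfold phi
  generalize Nat.mod (Nat.mul (dn z a) C) 191 = y
  simp only
  cases Nat.beq y 0
  · exact (mod_lt' _).le
  · exact le_rfl

theorem chi_iff {x : ℕ} (hx : x < 191) : chi x = true ↔ (x : F) ≠ 0 ∧ IsSquare (x : F) := by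
  rw [chi_spec x hx, isSq_iff]
  constructor
  · rintro ⟨y, h1, h2, h3⟩
    have h4 : (y : F) ≠ 0 := by
      rw [Ne, cast_eq_zero (by omega)]
      omega
    have h5 : (x : F) = (y : F) * (y : F) := by
      rw [← h3, ZMod.natCast_mod, Nat.cast_mul]
    refine ⟨?_, ⟨_, h5⟩⟩
    rw [h5]
    exact mul_ne_zero h4 h4
  · rintro ⟨h1, r, h2⟩
    have hr : r ≠ 0 := by
      rintro rfl
      exact h1 (by rw [h2, mul_zero])
    refine ⟨r.val, ?_, ?_, ?_⟩
    · rw [Nat.one_le_iff_ne_zero, Ne, ZMod.val_eq_zero]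
      exact hr
    · have := ZMod.val_lt r
      omega
    · have h3 : ((r.val * r.val % 191 : ℕ) : F) = (x : F) := by
        rw [ZMod.natCast_mod, Nat.cast_mul, ZMod.natCast_zmod_val, h2]
      exact cast_inj (Nat.mod_lt _ (by norm_num)) hx h3

theorem ori_iff (a b c : ℕ) : ori a b c = true ↔
    dt (vec c) (vec a) * dt (vec c) (vec b) * dt (vec b) (vec a) ≠ 0 ∧
      IsSquare (dt (vec c) (vec a) * dt (vec c) (vec b) * dt (vec b) (vec a)) := by
  unfold ori
  rw [chi_iff (mod_lt' _), cast_mod]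
  have : ((Nat.mul (Nat.mod (Nat.mul (dn c a) (dn c b)) 191) (dn b a) : ℕ) : F) =
      dt (vec c) (vec a) * dt (vec c) (vec b) * dt (vec b) (vec a) := by
    change ((Nat.mod (Nat.mul (dn c a) (dn c b)) 191 * (dn b a) : ℕ) : F) = _
    rw [Nat.cast_mul, cast_mod]
    change ((dn c a * dn c b : ℕ) : F) * _ = _
    rw [Nat.cast_mul, dn_cast, dn_cast, dn_cast]
  rw [this]

end Pool.Agent.V7H92.S5
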