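import Mathlib

set_option autoImplicit false
set_option linter.unusedSectionVars false

/-!
# Möbius maps with square determinant on the projective line `K ∪ {∞}`
-/

namespace Pool.Agent.V7H92.S5

open OnePoint Matrix

variable {K : Type*} [Field K] [DecidableEq K]

/-- the point with homogeneous coordinates `(x, y)` -/
def pt (a : K × K) : OnePoint K := if a.2 = 0 then ∞ else ((a.1 / a.2 : K) : OnePoint K)

/-- the determinant of two vectors -/
def dt (a b : K × K) : K := a.1 * b.2 - a.2 * b.1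

lemma pt_eq_iff {a b : K × K} (ha : a ≠ 0) (hb : b ≠ 0) : pt a = pt b ↔ dt a b = 0 := by
  obtain ⟨a1, a2⟩ := a
  obtain ⟨b1, b2⟩ := b
  simp only [ne_eq, Prod.mk_eq_zero, not_and] at ha hb
  unfold pt dt
  simp only
  by_cases h1 : a2 = 0
  · subst h1
    have ha1 : a1 ≠ 0 := fun h => ha h rfl
    by_cases h2 : b2 = 0
    · subst h2
      simp
    · simp [h2, ha1]
  · by_cases h2 : b2 = 0
    · subst h2
      have hb1 : b1 ≠ 0 := fun h => hb h rfl
      simp [h1, hb1]
    · simp only [h1, h2, if_false, OnePoint.coe_eq_coe]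
      rw [div_eq_div_iff h1 h2, sub_eq_zero, mul_comm b1 a2]

lemma smul_pt (g : GL (Fin 2) K) (a : K × K) (ha : a ≠ 0) :
    g • pt a = pt (g 0 0 * a.1 + g 0 1 * a.2, g 1 0 * a.1 + g 1 1 * a.2) := by
  obtain ⟨x, y⟩ := a
  simp only [ne_eq, Prod.mk_eq_zero, not_and] at ha
  unfold pt
  simp only
  by_cases h1 : y = 0
  · subst h1
    have hx : x ≠ 0 := fun h => ha h rfl
    rw [if_pos rfl, OnePoint.smul_infty_eq_ite]
    by_cases h2 : g 1 0 = 0
    · simp [h2]
    · have h3 : g 1 0 * x + g 1 1 * 0 ≠ 0 := by simp [h2, hx]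
      rw [if_neg h2, if_neg h3]
      congr 1
      rw [mul_zero, mul_zero, add_zero, add_zero, mul_div_mul_right _ _ hx]
  · rw [if_neg h1, OnePoint.smul_some_eq_ite]
    have h3 : g 1 0 * (x / y) + g 1 1 = (g 1 0 * x + g 1 1 * y) / y := by
      field_simp
    have h4 : g 0 0 * (x / y) + g 0 1 = (g 0 0 * x + g 0 1 * y) / y := by
      field_simp
    rw [h3, h4]
    by_cases h2 : g 1 0 * x + g 1 1 * y = 0
    · simp [h2]
    · rw [if_neg h2, if_neg (div_ne_zero h2 h1)]
      congr 1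
      rw [div_div_div_cancel_right₀ h1]

/-- the matrix of the Möbius map which maps `a, b, c` to `∞, 0, 1` -/
def PM (a b c : K × K) : Matrix (Fin 2) (Fin 2) K :=
  !![b.2 * dt c a, -(b.1 * dt c a); a.2 * dt c b, -(a.1 * dt c b)]

lemma PM_det (a b c : K × K) : (PM a b c).det = dt c a * dt c b * dt b a := by
  unfold PM dt
  rw [Matrix.det_fin_two_of]
  ring

/-- the Möbius map which maps `a, b, c` to `∞, 0, 1` -/
noncomputable def PG (a b c : K × K) (h : dt c a * dt c b * dt b a ≠ 0) : GL (Fin 2) K :=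
  Matrix.GeneralLinearGroup.mkOfDetNeZero (PM a b c) (by rw [PM_det]; exact h)

lemma PG_coe (a b c : K × K) (h : dt c a * dt c b * dt b a ≠ 0) :
    ((PG a b c h : GL (Fin 2) K) : Matrix (Fin 2) (Fin 2) K) = PM a b c := rfl

lemma PG_pt (a b c : K × K) (h : dt c a * dt c b * dt b a ≠ 0) (z : K × K) (hz : z ≠ 0) :
    PG a b c h • pt z = pt (dt z b * dt c a, dt z a * dt c b) := by
  rw [smul_pt _ _ hz]
  have h00 : (PG a b c h) 0 0 = b.2 * dt c a := rfl
  have h01 : (PG a b c h) 0 1 = -(b.1 * dt c a) := rfl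
  have h10 : (PG a b c h) 1 0 = a.2 * dt c b := rfl
  have h11 : (PG a b c h) 1 1 = -(a.1 * dt c b) := rfl
  rw [h00, h01, h10, h11]
  congr 1
  unfold dt
  ext
  · simp only
    ring
  · simp only
    ring

lemma pt_inf : pt ((1, 0) : K × K) = ∞ := by simp [pt]

lemma pt_zero : pt ((0, 1) : K × K) = ((0 : K) : OnePoint K) := by simp [pt]

lemma pt_one : pt ((1, 1) : K × K) = ((1 : K) : OnePoint K) := by simp [pt]

lemma PG_a (a b c : K × K) (h : dt c a * dt c b * dt b a ≠ 0) (ha : a ≠ 0) :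
    PG a b c h • pt a = ∞ := by
  rw [PG_pt _ _ _ _ _ ha]
  have : dt a a = 0 := by unfold dt; ring
  unfold pt
  simp [this]

lemma PG_b (a b c : K × K) (h : dt c a * dt c b * dt b a ≠ 0) (hb : b ≠ 0) :
    PG a b c h • pt b = ((0 : K) : OnePoint K) := by
  rw [PG_pt _ _ _ _ _ hb]
  have h1 : dt b b = 0 := by unfold dt; ring
  have h2 : dt b a ≠ 0 := by
    intro h0
    apply h
    rw [h0, mul_zero]
  have h3 : dt c b ≠ 0 := by
    intro h0
    apply h
    rw [h0, mul_zero, zero_mul]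
  unfold pt
  simp [h1, h2, h3]

lemma PG_c (a b c : K × K) (h : dt c a * dt c b * dt b a ≠ 0) (hc : c ≠ 0) :
    PG a b c h • pt c = ((1 : K) : OnePoint K) := by
  rw [PG_pt _ _ _ _ _ hc]
  have h2 : dt c a ≠ 0 := by
    intro h0
    apply h
    rw [h0, zero_mul, zero_mul]
  have h3 : dt c b ≠ 0 := by
    intro h0
    apply h
    rw [h0, mul_zero, zero_mul]
  unfold pt
  have h4 : dt c a * dt c b ≠ 0 := mul_ne_zero h2 h3
  rw [if_neg h4]
  congr 1
  rw [mul_comm (dt c b), div_self h4]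

/-- A Möbius map which fixes `∞, 0, 1` is the identity, and its determinant is a square. -/
lemma rigid (g : GL (Fin 2) K) (h1 : g • (∞ : OnePoint K) = ∞)
    (h2 : g • ((0 : K) : OnePoint K) = ((0 : K) : OnePoint K))
    (h3 : g • ((1 : K) : OnePoint K) = ((1 : K) : OnePoint K)) :
    (∀ x : OnePoint K, g • x = x) ∧ IsSquare (g : Matrix (Fin 2) (Fin 2) K).det := by
  have e1 : g 1 0 = 0 := by
    rwa [OnePoint.smul_infty_eq_self_iff] at h1
  have hd : (g : Matrix (Fin 2) (Fin 2) K).det ≠ 0 := g.det_ne_zero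
  rw [Matrix.det_fin_two, e1, mul_zero, sub_zero] at hd
  have e3 : g 1 1 ≠ 0 := right_ne_zero_of_mul hd
  have e2 : g 0 1 = 0 := by
    rw [OnePoint.smul_some_eq_ite] at h2
    rw [e1, mul_zero, zero_add, if_neg e3, mul_zero, zero_add, OnePoint.coe_eq_coe,
      div_eq_zero_iff] at h2
    rcases h2 with h2 | h2
    · exact h2
    · exact absurd h2 e3
  have e4 : g 0 0 = g 1 1 := by
    rw [OnePoint.smul_some_eq_ite] at h3
    rw [e1, e2, zero_mul, zero_add, if_neg e3, mul_one, add_zero, OnePoint.coe_eq_coe,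
      div_eq_one_iff_eq e3] at h3
    exact h3
  constructor
  · intro x
    induction x using OnePoint.rec with
    | infty => exact h1
    | coe x =>
      rw [OnePoint.smul_some_eq_ite, e1, e2, e4, zero_mul, zero_add, if_neg e3, add_zero,
        mul_div_cancel_left₀ _ e3]
  · rw [Matrix.det_fin_two, e1, e2, e4, mul_zero, sub_zero]
    exact ⟨g 1 1, rfl⟩

/-- The Möbius maps with square determinant. -/
def Sq (K : Type*) [Field K] : Subgroup (GL (Fin 2) K) where
  carrier := {g | IsSquare (g : Matrix (Fin 2) (Fin 2) K).det}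
  mul_mem' := by
    intro a b ha hb
    simp only [Set.mem_ofPred_eq] at ha hb ⊢
    rw [Units.val_mul, Matrix.det_mul]
    exact ha.mul hb
  one_mem' := by
    simp
  inv_mem' := by
    intro a ha
    simp only [Set.mem_ofPred_eq] at ha ⊢
    have h1 : (a : Matrix (Fin 2) (Fin 2) K).det * ((a⁻¹ : GL (Fin 2) K) :
        Matrix (Fin 2) (Fin 2) K).det = 1 := by
      rw [← Matrix.det_mul, ← Units.val_mul, mul_inv_cancel, Units.val_one, Matrix.det_one]
    obtain ⟨s, hs⟩ := ha
    rw [hs] at h1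
    refine ⟨s⁻¹, ?_⟩
    have hs0 : s ≠ 0 := by
      rintro rfl
      simp at h1
    field_simp
    linear_combination h1

lemma mem_Sq {g : GL (Fin 2) K} : g ∈ Sq K ↔ IsSquare (g : Matrix (Fin 2) (Fin 2) K).det :=
  Iff.rfl

lemma PG_mem_Sq (a b c : K × K) (h : dt c a * dt c b * dt b a ≠ 0)
    (hs : IsSquare (dt c a * dt c b * dt b a)) : PG a b c h ∈ Sq K := by
  rw [mem_Sq, PG_coe, PM_det]
  exact hs

/-- A Möbius map is determined by the preimages of `∞, 0, 1`. -/
lemma eq_PG (g : GL (Fin 2) K) (hg : g ∈ Sq K) (a b c : K × K) (ha : a ≠ 0) (hb : b ≠ 0)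
    (hc : c ≠ 0) (h1 : g • pt a = ∞) (h2 : g • pt b = ((0 : K) : OnePoint K))
    (h3 : g • pt c = ((1 : K) : OnePoint K)) (h : dt c a * dt c b * dt b a ≠ 0) :
    (∀ x : OnePoint K, g • x = PG a b c h • x) ∧ IsSquare (dt c a * dt c b * dt b a) := by
  have k1 := PG_a a b c h ha
  have k2 := PG_b a b c h hb
  have k3 := PG_c a b c h hc
  have inv : ∀ {x y : OnePoint K}, PG a b c h • x = y → (PG a b c h)⁻¹ • y = x := by
    rintro x y rfl
    exact inv_smul_smul _ _
  obtain ⟨r1, r2⟩ := rigid (g * (PG a b c h)⁻¹) (by rw [mul_smul, inv k1, h1])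
    (by rw [mul_smul, inv k2, h2]) (by rw [mul_smul, inv k3, h3])
  constructor
  · intro x
    have := r1 (PG a b c h • x)
    rwa [mul_smul, inv_smul_smul] at this
  · have h4 : g * (PG a b c h)⁻¹ ∈ Sq K := r2
    have h5 : PG a b c h ∈ Sq K := by
      have h6 : (g * (PG a b c h)⁻¹)⁻¹ * g ∈ Sq K :=
        Subgroup.mul_mem _ (Subgroup.inv_mem _ h4) hg
      rwa [_root_.mul_inv_rev, inv_inv, inv_mul_cancel_right] at h6
    rwa [mem_Sq, PG_coe, PM_det] at h5

end Pool.Agent.V7H92.S5
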