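import Pool.Agent.V7H92.S5.Data

set_option autoImplicit false

/-!
# The checks of the data

The checks are cut into pieces, so that the kernel holds only a small part of the work in memory
at any time.
-/

namespace Pool.Agent.V7H92.S5

theorem chkB_all : ∀ i < NB, chkB (bcT dB) i = true := by decide +kernel

theorem cI0 : ∀ k < 11, chkI (bcT dB) (MT dM) (0 + k) = true := by
  decide +kernel

theorem cI1 : ∀ k < 11, chkI (bcT dB) (MT dM) (11 + k) = true := by
  decide +kernel

theorem cI2 : ∀ k < 11, chkI (bcT dB) (MT dM) (22 + k) = true := by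
  decide +kernel

theorem cI3 : ∀ k < 11, chkI (bcT dB) (MT dM) (33 + k) = true := by
  decide +kernel

theorem cI4 : ∀ k < 11, chkI (bcT dB) (MT dM) (44 + k) = true := by
  decide +kernel

theorem cI5 : ∀ k < 11, chkI (bcT dB) (MT dM) (55 + k) = true := by
  decide +kernel

theorem cI6 : ∀ k < 11, chkI (bcT dB) (MT dM) (66 + k) = true := by
  decide +kernel

theorem cI7 : ∀ k < 11, chkI (bcT dB) (MT dM) (77 + k) = true := by
  decide +kernel

theorem cI8 : ∀ k < 11, chkI (bcT dB) (MT dM) (88 + k) = true := by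
  decide +kernel

theorem cI9 : ∀ k < 11, chkI (bcT dB) (MT dM) (99 + k) = true := by
  decide +kernel

theorem cI10 : ∀ k < 11, chkI (bcT dB) (MT dM) (110 + k) = true := by
  decide +kernel

theorem cI11 : ∀ k < 11, chkI (bcT dB) (MT dM) (121 + k) = true := by
  decide +kernel

theorem cI12 : ∀ k < 11, chkI (bcT dB) (MT dM) (132 + k) = true := by
  decide +kernel

theorem cI13 : ∀ k < 11, chkI (bcT dB) (MT dM) (143 + k) = true := by
  decide +kernel

theorem cI14 : ∀ k < 11, chkI (bcT dB) (MT dM) (154 + k) = true := by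
  decide +kernel

theorem cI15 : ∀ k < 11, chkI (bcT dB) (MT dM) (165 + k) = true := by
  decide +kernel

theorem cU0 : ∀ k < 7, chkU NB (bcT dB) dW.get (2 + k) = true := by
  decide +kernel

theorem cU1 : ∀ k < 6, chkU NB (bcT dB) dW.get (9 + k) = true := by
  decide +kernel

theorem cU2 : ∀ k < 6, chkU NB (bcT dB) dW.get (15 + k) = true := by
  decide +kernel

theorem cU3 : ∀ k < 7, chkU NB (bcT dB) dW.get (21 + k) = true := by
  decide +kernel

theorem cU4 : ∀ k < 7, chkU NB (bcT dB) dW.get (28 + k) = true := by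
  decide +kernel

theorem cU5 : ∀ k < 7, chkU NB (bcT dB) dW.get (35 + k) = true := by
  decide +kernel

theorem cU6 : ∀ k < 8, chkU NB (bcT dB) dW.get (42 + k) = true := by
  decide +kernel

theorem cU7 : ∀ k < 8, chkU NB (bcT dB) dW.get (50 + k) = true := by
  decide +kernel

theorem cU8 : ∀ k < 9, chkU NB (bcT dB) dW.get (58 + k) = true := by
  decide +kernel

theorem cU9 : ∀ k < 9, chkU NB (bcT dB) dW.get (67 + k) = true := by
  decide +kernel

theorem cU10 : ∀ k < 10, chkU NB (bcT dB) dW.get (76 + k) = true := by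
  decide +kernel

theorem cU11 : ∀ k < 11, chkU NB (bcT dB) dW.get (86 + k) = true := by
  decide +kernel

theorem cU12 : ∀ k < 13, chkU NB (bcT dB) dW.get (97 + k) = true := by
  decide +kernel

theorem cU13 : ∀ k < 15, chkU NB (bcT dB) dW.get (110 + k) = true := by
  decide +kernel

theorem cU14 : ∀ k < 20, chkU NB (bcT dB) dW.get (125 + k) = true := by
  decide +kernel

theorem cU15 : ∀ k < 46, chkU NB (bcT dB) dW.get (145 + k) = true := by
  decide +kernel

theorem piece {p : ℕ → Prop} {a b : ℕ} (h : ∀ k < b, p (a + k)) {i : ℕ} (h1 : a ≤ i)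
    (h2 : i < a + b) : p i := by
  have h3 := h (i - a) (by omega)
  rwa [Nat.add_sub_cancel' h1] at h3

theorem chkI_all : ∀ i < NB, chkI (bcT dB) (MT dM) i = true := by
  intro i hi
  have hi' : i < 176 := hi
  rcases Nat.lt_or_ge i 11 with h1 | h1
  · exact piece (p := fun i => chkI (bcT dB) (MT dM) i = true) cI0 (Nat.zero_le _) (by omega)
  rcases Nat.lt_or_ge i 22 with h2 | h2
  · exact piece (p := fun i => chkI (bcT dB) (MT dM) i = true) cI1 h1 (by omega)
  rcases Nat.lt_or_ge i 33 with h3 | h3
  · exact piece (p := fun i => chkI (bcT dB) (MT dM) i = true) cI2 h2 (by omega)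
  rcases Nat.lt_or_ge i 44 with h4 | h4
  · exact piece (p := fun i => chkI (bcT dB) (MT dM) i = true) cI3 h3 (by omega)
  rcases Nat.lt_or_ge i 55 with h5 | h5
  · exact piece (p := fun i => chkI (bcT dB) (MT dM) i = true) cI4 h4 (by omega)
  rcases Nat.lt_or_ge i 66 with h6 | h6
  · exact piece (p := fun i => chkI (bcT dB) (MT dM) i = true) cI5 h5 (by omega)
  rcases Nat.lt_or_ge i 77 with h7 | h7
  · exact piece (p := fun i => chkI (bcT dB) (MT dM) i = true) cI6 h6 (by omega)
  rcases Nat.lt_or_ge i 88 with h8 | h8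
  · exact piece (p := fun i => chkI (bcT dB) (MT dM) i = true) cI7 h7 (by omega)
  rcases Nat.lt_or_ge i 99 with h9 | h9
  · exact piece (p := fun i => chkI (bcT dB) (MT dM) i = true) cI8 h8 (by omega)
  rcases Nat.lt_or_ge i 110 with h10 | h10
  · exact piece (p := fun i => chkI (bcT dB) (MT dM) i = true) cI9 h9 (by omega)
  rcases Nat.lt_or_ge i 121 with h11 | h11
  · exact piece (p := fun i => chkI (bcT dB) (MT dM) i = true) cI10 h10 (by omega)
  rcases Nat.lt_or_ge i 132 with h12 | h12
  · exact piece (p := fun i => chkI (bcT dB) (MT dM) i = true) cI11 h11 (by omega)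
  rcases Nat.lt_or_ge i 143 with h13 | h13
  · exact piece (p := fun i => chkI (bcT dB) (MT dM) i = true) cI12 h12 (by omega)
  rcases Nat.lt_or_ge i 154 with h14 | h14
  · exact piece (p := fun i => chkI (bcT dB) (MT dM) i = true) cI13 h13 (by omega)
  rcases Nat.lt_or_ge i 165 with h15 | h15
  · exact piece (p := fun i => chkI (bcT dB) (MT dM) i = true) cI14 h14 (by omega)
  exact piece (p := fun i => chkI (bcT dB) (MT dM) i = true) cI15 h15 (by omega)

theorem chkU_all : ∀ u < 191, 2 ≤ u → chkU NB (bcT dB) dW.get u = true := by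
  intro u hu h0
  rcases Nat.lt_or_ge u 9 with h1 | h1
  · exact piece (p := fun u => chkU NB (bcT dB) dW.get u = true) cU0 h0 (by omega)
  rcases Nat.lt_or_ge u 15 with h2 | h2
  · exact piece (p := fun u => chkU NB (bcT dB) dW.get u = true) cU1 h1 (by omega)
  rcases Nat.lt_or_ge u 21 with h3 | h3
  · exact piece (p := fun u => chkU NB (bcT dB) dW.get u = true) cU2 h2 (by omega)
  rcases Nat.lt_or_ge u 28 with h4 | h4
  · exact piece (p := fun u => chkU NB (bcT dB) dW.get u = true) cU3 h3 (by omega)
  rcases Nat.lt_or_ge u 35 with h5 | h5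
  · exact piece (p := fun u => chkU NB (bcT dB) dW.get u = true) cU4 h4 (by omega)
  rcases Nat.lt_or_ge u 42 with h6 | h6
  · exact piece (p := fun u => chkU NB (bcT dB) dW.get u = true) cU5 h5 (by omega)
  rcases Nat.lt_or_ge u 50 with h7 | h7
  · exact piece (p := fun u => chkU NB (bcT dB) dW.get u = true) cU6 h6 (by omega)
  rcases Nat.lt_or_ge u 58 with h8 | h8
  · exact piece (p := fun u => chkU NB (bcT dB) dW.get u = true) cU7 h7 (by omega)
  rcases Nat.lt_or_ge u 67 with h9 | h9
  · exact piece (p := fun u => chkU NB (bcT dB) dW.get u = true) cU8 h8 (by omega)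
  rcases Nat.lt_or_ge u 76 with h10 | h10
  · exact piece (p := fun u => chkU NB (bcT dB) dW.get u = true) cU9 h9 (by omega)
  rcases Nat.lt_or_ge u 86 with h11 | h11
  · exact piece (p := fun u => chkU NB (bcT dB) dW.get u = true) cU10 h10 (by omega)
  rcases Nat.lt_or_ge u 97 with h12 | h12
  · exact piece (p := fun u => chkU NB (bcT dB) dW.get u = true) cU11 h11 (by omega)
  rcases Nat.lt_or_ge u 110 with h13 | h13
  · exact piece (p := fun u => chkU NB (bcT dB) dW.get u = true) cU12 h12 (by omega)
  rcases Nat.lt_or_ge u 125 with h14 | h14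
  · exact piece (p := fun u => chkU NB (bcT dB) dW.get u = true) cU13 h13 (by omega)
  rcases Nat.lt_or_ge u 145 with h15 | h15
  · exact piece (p := fun u => chkU NB (bcT dB) dW.get u = true) cU14 h14 (by omega)
  exact piece (p := fun u => chkU NB (bcT dB) dW.get u = true) cU15 h15 (by omega)

end Pool.Agent.V7H92.S5
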